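import Pool.Agent.helper67.GV.Spec

set_option autoImplicit false

open Finset Filter Topology

namespace Pool.Agent.helper67.GV

open Pool.Agent.helper21.GR

theorem EVN (hFM0 : FM0_stmt) (hUPF : UPF_stmt) (hLOW : LOW_stmt) : EVN_stmt := by
  intro T g hT hg hgT m
  rcases Nat.eq_zero_or_pos m with h0 | h0
  · rw [h0, Nat.mul_zero, Multiset.replicate_zero, pow_zero]
    exact hFM0.1
  · refine le_antisymm ?_ (hLOW T m hT)
    have h1 := hUPF T g hT hg (2 * m) (by omega)
    rw [pow_mul, hgT, ← Nat.cast_pow] at h1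
    exact_mod_cast h1

end Pool.Agent.helper67.GV
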