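import Pool.Agent.helper67.GV.Spec

set_option autoImplicit false

open Finset Filter Topology

namespace Pool.Agent.helper67.GV

open Pool.Agent.helper21.GR

theorem FRQ_pow (x : ℝ) (hx : 0 ≤ x) (m : ℕ) (e : ℝ) : (x ^ m) ^ e = x ^ ((m : ℝ) * e) := by
  rw [← Real.rpow_natCast, ← Real.rpow_mul hx]

theorem FRQ_lim (T K : ℕ) (hT : 1 ≤ T) (hK : 1 ≤ K) :
    Tendsto (fun k : ℕ => (((if Even k then K ^ (k / 2) else T * K ^ ((k - 1) / 2) : ℕ)) : ℝ) ^ ((1 : ℝ) / (k : ℝ)))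
      atTop (𝓝 (Real.sqrt K)) := by
  have hT' : (1 : ℝ) ≤ (T : ℝ) := by exact_mod_cast hT
  have hK' : (1 : ℝ) ≤ (K : ℝ) := by exact_mod_cast hK
  have hT0 : (0 : ℝ) < (T : ℝ) := by linarith
  have hK0 : (0 : ℝ) < (K : ℝ) := by linarith
  have h0 : Tendsto (fun k : ℕ => (1 : ℝ) / (k : ℝ)) atTop (𝓝 0) := tendsto_one_div_atTop_nhds_zero_nat
  have hL : Tendsto (fun k : ℕ => (K : ℝ) ^ ((1 / 2 : ℝ) * (1 - 1 / (k : ℝ)))) atTop (𝓝 (Real.sqrt K)) := by
    have h1 : Tendsto (fun k : ℕ => (1 / 2 : ℝ) * (1 - 1 / (k : ℝ))) atTop (𝓝 ((1 / 2 : ℝ) * (1 - 0))) :=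
      (tendsto_const_nhds.sub h0).const_mul _
    have h2 : (1 / 2 : ℝ) * (1 - 0) = 1 / 2 := by norm_num
    rw [h2] at h1
    rw [Real.sqrt_eq_rpow]
    exact (Real.continuousAt_const_rpow (b := 1 / 2) hK0.ne').tendsto.comp h1
  have hU : Tendsto (fun k : ℕ => (T : ℝ) ^ ((1 : ℝ) / (k : ℝ)) * (K : ℝ) ^ (1 / 2 : ℝ)) atTop (𝓝 (Real.sqrt K)) := by
    have h1 : Tendsto (fun k : ℕ => (T : ℝ) ^ ((1 : ℝ) / (k : ℝ))) atTop (𝓝 ((T : ℝ) ^ (0 : ℝ))) :=
      (Real.continuousAt_const_rpow (b := 0) hT0.ne').tendsto.comp h0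
    have h2 := h1.mul_const ((K : ℝ) ^ (1 / 2 : ℝ))
    rw [Real.rpow_zero, one_mul] at h2
    rw [Real.sqrt_eq_rpow]
    exact h2
  refine tendsto_of_tendsto_of_tendsto_of_le_of_le' hL hU ?_ ?_
  · filter_upwards [eventually_ge_atTop 1] with k hk
    have hk0 : (0 : ℝ) < (k : ℝ) := by exact_mod_cast hk
    by_cases he : Even k
    · rw [if_pos he]
      obtain ⟨m, hm⟩ := he
      have h1 : k / 2 = m := by omega
      rw [h1, Nat.cast_pow, FRQ_pow _ hK0.le]
      refine Real.rpow_le_rpow_of_exponent_le hK' ?_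
      have h2 : (k : ℝ) = m + m := by rw [hm]; push_cast; ring
      have h3 : (m : ℝ) * (1 / (k : ℝ)) = 1 / 2 := by
        have : (m : ℝ) = (k : ℝ) / 2 := by rw [h2]; ring
        rw [this]
        field_simp
      rw [h3]
      have h4 : 0 ≤ 1 / (k : ℝ) := by positivity
      linarith
    · rw [if_neg he]
      obtain ⟨m, hm⟩ := Nat.not_even_iff_odd.1 he
      have h1 : (k - 1) / 2 = m := by omega
      rw [h1, Nat.cast_mul, Nat.cast_pow, Real.mul_rpow hT0.le (by positivity), FRQ_pow _ hK0.le]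
      have h3 : (m : ℝ) * (1 / (k : ℝ)) = (1 / 2 : ℝ) * (1 - 1 / (k : ℝ)) := by
        have : (m : ℝ) = ((k : ℝ) - 1) / 2 := by rw [hm]; push_cast; ring
        rw [this]
        field_simp
      rw [h3]
      refine le_mul_of_one_le_left (by positivity) ?_
      exact Real.one_le_rpow hT' (by positivity)
  · filter_upwards [eventually_ge_atTop 1] with k hk
    have hk0 : (0 : ℝ) < (k : ℝ) := by exact_mod_cast hk
    by_cases he : Even k
    · rw [if_pos he]
      obtain ⟨m, hm⟩ := he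
      have h1 : k / 2 = m := by omega
      rw [h1, Nat.cast_pow, FRQ_pow _ hK0.le]
      have h2 : (k : ℝ) = m + m := by rw [hm]; push_cast; ring
      have h3 : (m : ℝ) * (1 / (k : ℝ)) = 1 / 2 := by
        have : (m : ℝ) = (k : ℝ) / 2 := by rw [h2]; ring
        rw [this]
        field_simp
      rw [h3]
      refine le_mul_of_one_le_left (by positivity) ?_
      exact Real.one_le_rpow hT' (by positivity)
    · rw [if_neg he]
      obtain ⟨m, hm⟩ := Nat.not_even_iff_odd.1 he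
      have h1 : (k - 1) / 2 = m := by omega
      rw [h1, Nat.cast_mul, Nat.cast_pow, Real.mul_rpow hT0.le (by positivity), FRQ_pow _ hK0.le]
      have h3 : (m : ℝ) * (1 / (k : ℝ)) = (1 / 2 : ℝ) * (1 - 1 / (k : ℝ)) := by
        have : (m : ℝ) = ((k : ℝ) - 1) / 2 := by rw [hm]; push_cast; ring
        rw [this]
        field_simp
      rw [h3]
      refine mul_le_mul_of_nonneg_left ?_ (by positivity)
      refine Real.rpow_le_rpow_of_exponent_le hK' ?_
      have h4 : 0 ≤ 1 / (k : ℝ) := by positivity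
      linarith

theorem FRQ (hRAM : RAM_stmt) : FRQ_stmt := by
  intro T G hT hG hfr
  obtain ⟨_, hK, _⟩ := hRAM T hT
  have h := FRQ_lim T (K0 T) (by omega) hK
  refine tendsto_nhds_unique_of_frequently_eq hG h ?_
  refine hfr.mono ?_
  intro k hk
  rw [hk]
  rfl

end Pool.Agent.helper67.GV
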